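import Pool.Agent.Helper76.LD6.Pc
import Pool.Agent.Helper17.LD6.H1
import Pool.Agent.Helper94.LD6.TTA

/-!
# Project LD6: `test_few`, the children on which the test is not constant
-/

set_option autoImplicit false

namespace Pool.Agent.Helper67.LD6

open Set MeasureTheory Filter Topology
open Pool.Agent.Helper41.LD (av var haar Kk)
open Pool.Agent.Helper41.LD4 (A M W Pot NB NBg)
open Pool.Agent.Helper41.LD6
open Pool.Agent.Helper76.LD6 (brk few6)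
open Pool.Agent.Helper17.LD6 (hr_gr)
open Pool.Agent.Helper94.LD6

variable {F : Pm} {K : ℕ} {a₀ ℓst a ℓ x : ℝ} {q : Fin (F.d + 1) → ℕ}

lemma Vf_le {A₀ y : ℝ} {n n' : ℕ} (hA : 0 < A₀) (hy : 1 ≤ y) (h : n ≤ n') : Vf A₀ n y ≤ Vf A₀ n' y :=
  (le_mul_of_one_le_right (Vf_nonneg hA (by linarith)) (one_le_pow₀ hy)).trans
    (Vf_step hA (by linarith) h)

open Classical in
/-- the children on which the test is not constant: `brk` for each `U (t + i)`, `few6` -/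
theorem test_few (hF : F.Ok) (hK : F.Big K) (S : F.St K a₀ ℓst) (hℓ : 0 < ℓ) (h1 : a₀ ≤ a) (h2 : a + ℓ ≤ a₀ + ℓst) {t : ℕ}
    (ht : F.V K a₀ ℓst (t + F.d) (a + ℓ) * ℓ ≤ 2 ^ ((F.C₂ + 1) * F.E K)) (hqs : q ∈ Qs F.d K) :
    (((Finset.range (2 ^ (K ^ 3))).filter fun b : ℕ => ¬ ∃ v : ℝ, ∀ x ∈ Ioo (a + b * (ℓ / (2 ^ (K ^ 3) : ℕ)))
        (a + (b + 1) * (ℓ / (2 ^ (K ^ 3) : ℕ))), F.G K a₀ ℓst q t x = v).card : ℝ) ≤ 2 ^ ((F.C₂ + 3) * F.E K) := by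
  have ha₀ : 0 < a₀ := by linarith [hF.h1, S.lo]
  have ha : 0 < a := by linarith
  have hab : a ≤ a + ℓ := by linarith
  have hq : ∀ i, q i < 2 ^ K := by
    intro i
    have h3 := (Finset.mem_filter.1 hqs).1
    rw [Fintype.mem_piFinset] at h3
    exact Finset.mem_range.1 (h3 i)
  have hbrk : ∀ i : Fin (F.d + 1), ∃ Si : Finset ℝ,
      (Si.card : ℝ) ≤ ((2 ^ K : ℕ) : ℝ) * (F.U K a₀ ℓst (t + i) (a + ℓ) - F.U K a₀ ℓst (t + i) a) + 1 ∧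
      ∀ x ∈ Icc a (a + ℓ), ∀ y ∈ Icc a (a + ℓ), x ≤ y → (∀ z ∈ Si, z ∉ Ioc x y) →
        ⌊((2 ^ K : ℕ) : ℝ) * F.U K a₀ ℓst (t + i) x⌋ = ⌊((2 ^ K : ℕ) : ℝ) * F.U K a₀ ℓst (t + i) y⌋ := by
    intro i
    refine brk hab (Uf_cont _ _ _).continuousOn ?_ _
    intro x hx y _ hxy
    exact Uf_mono hF.hA (ha.le.trans hx.1) hxy
  choose Si hSi hSi' using hbrk
  set SS : Finset ℝ := Finset.univ.biUnion Si with hSS
  have hf : ∀ x ∈ Icc a (a + ℓ), ∀ y ∈ Icc a (a + ℓ), x ≤ y → (∀ z ∈ SS, z ∉ Ioc x y) →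
      F.G K a₀ ℓst q t x = F.G K a₀ ℓst q t y := by
    intro x hx y hy hxy hz
    unfold Pm.G GQ
    split_ifs with hlt
    · refine Finset.prod_congr rfl fun i _ => ?_
      exact (hr_gr (hq i)).grid _ _ (hSi' i x hx y hy hxy fun z hz' =>
        hz z (Finset.mem_biUnion.2 ⟨i, Finset.mem_univ i, hz'⟩))
    · rfl
  have h3 := few6 hℓ SS hf (B := 2 ^ (K ^ 3)) Nat.one_le_two_pow
  refine h3.trans ?_
  have hX : (1 : ℝ) ≤ (2 : ℝ) ^ K * 2 ^ ((F.C₂ + 1) * F.E K) := by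
    have e1 : (1 : ℝ) ≤ (2 : ℝ) ^ K := one_le_pow₀ (by norm_num)
    have e2 : (1 : ℝ) ≤ (2 : ℝ) ^ ((F.C₂ + 1) * F.E K) := one_le_pow₀ (by norm_num)
    nlinarith
  have h4 : ∀ i, ((Si i).card : ℝ) ≤ 2 * ((2 : ℝ) ^ K * 2 ^ ((F.C₂ + 1) * F.E K)) := by
    intro i
    have e1 : F.U K a₀ ℓst (t + i) (a + ℓ) - F.U K a₀ ℓst (t + i) a ≤
        F.V K a₀ ℓst (t + i) (a + ℓ) * (a + ℓ - a) := Uf_sub hF.hA ha.le hab
    have e2 : F.V K a₀ ℓst (t + i) (a + ℓ) ≤ F.V K a₀ ℓst (t + F.d) (a + ℓ) :=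
      Vf_le hF.hA (by linarith [hF.h1, S.lo]) (by have := i.2; omega)
    have e3 : F.U K a₀ ℓst (t + i) (a + ℓ) - F.U K a₀ ℓst (t + i) a ≤ 2 ^ ((F.C₂ + 1) * F.E K) := by
      refine e1.trans ?_
      rw [add_sub_cancel_left]
      exact (mul_le_mul_of_nonneg_right e2 hℓ.le).trans ht
    have e4 : ((2 ^ K : ℕ) : ℝ) = (2 : ℝ) ^ K := by push_cast; rfl
    have e5 := hSi i
    rw [e4] at e5
    have e6 : (2 : ℝ) ^ K * (F.U K a₀ ℓst (t + i) (a + ℓ) - F.U K a₀ ℓst (t + i) a) ≤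
        (2 : ℝ) ^ K * 2 ^ ((F.C₂ + 1) * F.E K) := mul_le_mul_of_nonneg_left e3 (by positivity)
    linarith
  have h5 : (SS.card : ℝ) ≤ (F.d + 1) * (2 * ((2 : ℝ) ^ K * 2 ^ ((F.C₂ + 1) * F.E K))) := by
    have e1 : (SS.card : ℝ) ≤ ∑ i, ((Si i).card : ℝ) := by
      exact_mod_cast Finset.card_biUnion_le
    refine e1.trans ((Finset.sum_le_sum fun i _ => h4 i).trans (le_of_eq ?_))
    rw [Finset.sum_const, Finset.card_univ, Fintype.card_fin, nsmul_eq_mul]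
    push_cast
    ring
  refine h5.trans ?_
  have hK1 : 1 ≤ K := by
    have e1 : 0 < F.Z := by
      unfold Pm.Z
      positivity
    exact le_trans (Nat.one_le_pow 4 F.Z e1) hK
  have h6 : F.d + 2 + K ≤ 2 * F.E K := by
    unfold Pm.E
    nlinarith
  have h7 : ((F.d : ℝ) + 1) ≤ 2 ^ (F.d + 1) := by
    have : F.d + 1 < 2 ^ (F.d + 1) := Nat.lt_two_pow_self
    exact_mod_cast this.le
  calc ((F.d : ℝ) + 1) * (2 * ((2 : ℝ) ^ K * 2 ^ ((F.C₂ + 1) * F.E K)))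
      ≤ 2 ^ (F.d + 1) * (2 * ((2 : ℝ) ^ K * 2 ^ ((F.C₂ + 1) * F.E K))) :=
        mul_le_mul_of_nonneg_right h7 (by positivity)
    _ = 2 ^ (F.d + 2 + K) * 2 ^ ((F.C₂ + 1) * F.E K) := by
        rw [show F.d + 2 + K = (F.d + 1) + 1 + K by ring, pow_add, pow_add, pow_one]
        ring
    _ ≤ 2 ^ (2 * F.E K) * 2 ^ ((F.C₂ + 1) * F.E K) :=
        mul_le_mul_of_nonneg_right (pow_le_pow_right₀ (by norm_num) h6) (by positivity)
    _ = 2 ^ ((F.C₂ + 3) * F.E K) := by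
        rw [← pow_add]
        congr 1
        ring

end Pool.Agent.Helper67.LD6
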